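import Pool.Agent.N87.SN.MinTo
import Pool.Agent.N818.SN.Stm4

/-!
# Project SN, second part, MIN2 and TO2: minimality and torsion of `WD`, `WE`, `WF` (helper644)

After `Pool/Agent/N87/SN/MinTo.lean` (helper87).
-/

set_option autoImplicit false

namespace Pool.Agent.N644.SN

open WeierstrassCurve
open Pool.Agent.N818.SN
open Pool.Agent.Y676.IS (Cu cu_ns ns_eq Dat isoF isoF_zero isoF_x0 isoF_some TT T_add_T isT_of_x0
  dbl ker some_congr)
open Pool.Agent.Y700 (VR)
open Pool.Agent.N87.SN (minimal_of TT_ne odd_zero tors_two card_tors cu_delta_ne)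

/-! ### Minimality -/

lemma nd {n : ℕ} (hn : Fm n) {c : ℕ}
    (hc' : ∀ p : ℕ, p.Prime → p ∣ c → p = 2 ∨ p = 3) (h2 : ¬ 2 ^ 12 ∣ c) (h3 : ¬ 3 ^ 12 ∣ c)
    {p : ℕ} (hp : p.Prime) : ¬ p ^ 12 ∣ c * n ^ 6 := by
  intro h
  obtain ⟨hs, hm⟩ := hn
  by_cases hpn : p ∣ n
  · have hpc : ¬ p ∣ c := by
      intro hpc
      rcases hc' p hp hpc with rfl | rfl <;> omega
    have h1 : Nat.Coprime (p ^ 12) c := Nat.Coprime.pow_left 12 ((Nat.Prime.coprime_iff_not_dvd hp).2 hpc)
    have h2 : p ^ 12 ∣ n ^ 6 := h1.dvd_of_dvd_mul_left h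
    have h3 : (p ^ 2) ^ 6 ∣ n ^ 6 := by rw [← pow_mul]; exact h2
    have h4 : p ^ 2 ∣ n := (Nat.pow_dvd_pow_iff (by norm_num)).1 h3
    rw [pow_two] at h4
    exact hp.one_lt.ne' (Nat.isUnit_iff.1 (hs p h4))
  · have h1 : Nat.Coprime (p ^ 12) (n ^ 6) :=
      Nat.Coprime.pow 12 6 ((Nat.Prime.coprime_iff_not_dvd hp).2 hpn)
    have h4 : p ^ 12 ∣ c := h1.dvd_of_dvd_mul_right h
    rcases hc' p hp ((dvd_pow_self p (by norm_num)).trans h4) with rfl | rfl
    · exact h2 h4
    · exact h3 h4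

lemma prs {c i j : ℕ} (hc : c = 2 ^ i * 3 ^ j) (p : ℕ) (hp : p.Prime) (h : p ∣ c) : p = 2 ∨ p = 3 := by
  rw [hc] at h
  rcases hp.dvd_mul.1 h with h3 | h3
  · left
    exact (Nat.prime_dvd_prime_iff_eq hp Nat.prime_two).1 (hp.dvd_of_dvd_pow h3)
  · right
    exact (Nat.prime_dvd_prime_iff_eq hp Nat.prime_three).1 (hp.dvd_of_dvd_pow h3)

lemma delta_WD (n : ℕ) : (WD n).Δ = ((82944 * n ^ 6 : ℕ) : ℤ) := by
  simp only [WD, WeierstrassCurve.Δ, WeierstrassCurve.b₂, WeierstrassCurve.b₄,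
    WeierstrassCurve.b₆, WeierstrassCurve.b₈]
  push_cast
  ring

lemma delta_WE (n : ℕ) : (WE n).Δ = -((13436928 * n ^ 6 : ℕ) : ℤ) := by
  simp only [WE, WeierstrassCurve.Δ, WeierstrassCurve.b₂, WeierstrassCurve.b₄,
    WeierstrassCurve.b₆, WeierstrassCurve.b₈]
  push_cast
  ring

lemma delta_WF (n : ℕ) : (WF n).Δ = ((18432 * n ^ 6 : ℕ) : ℤ) := by
  simp only [WF, WeierstrassCurve.Δ, WeierstrassCurve.b₂, WeierstrassCurve.b₄,
    WeierstrassCurve.b₆, WeierstrassCurve.b₈]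
  push_cast
  ring

/-- **Project SN, MIN2.** -/
theorem t_MIN2 : Pool.Agent.N818.SN.S_MIN2 := by
  intro n hn
  have hn0 : n ≠ 0 := by
    obtain ⟨-, hm⟩ := hn
    rintro rfl
    omega
  refine ⟨minimal_of ?_ fun p hp h => ?_, minimal_of ?_ fun p hp h => ?_,
    minimal_of ?_ fun p hp h => ?_⟩
  · rw [delta_WD]
    exact_mod_cast mul_ne_zero (by norm_num) (pow_ne_zero 6 hn0)
  · rw [delta_WD] at h
    have h1 : p ^ 12 ∣ 82944 * n ^ 6 := by exact_mod_cast h
    exact nd hn (prs (i := 10) (j := 4) (by norm_num)) (by norm_num) (by norm_num) hp h1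
  · rw [delta_WE, neg_ne_zero]
    exact_mod_cast mul_ne_zero (by norm_num) (pow_ne_zero 6 hn0)
  · rw [delta_WE, dvd_neg] at h
    have h1 : p ^ 12 ∣ 13436928 * n ^ 6 := by exact_mod_cast h
    exact nd hn (prs (i := 11) (j := 8) (by norm_num)) (by norm_num) (by norm_num) hp h1
  · rw [delta_WF]
    exact_mod_cast mul_ne_zero (by norm_num) (pow_ne_zero 6 hn0)
  · rw [delta_WF] at h
    have h1 : p ^ 12 ∣ 18432 * n ^ 6 := by exact_mod_cast h
    exact nd hn (prs (i := 11) (j := 2) (by norm_num)) (by norm_num) (by norm_num) hp h1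

/-! ### Torsion -/

section

variable {a b a' b' u u' : ℚ}

/-- the doubling formula -/
lemma dbl_x {x y X Y : ℚ} (h : (Cu a b).Nonsingular x y) (h' : (Cu a b).Nonsingular X Y) (hy : y ≠ 0)
    (hP : (.some x y h : (Cu a b).Point) + .some x y h = .some X Y h') :
    X * (4 * y ^ 2) = (b - x ^ 2) ^ 2 := by
  have a1 : (Cu a b).a₁ = 0 := rfl
  have a2 : (Cu a b).a₂ = a := rfl
  have a3 : (Cu a b).a₃ = 0 := rfl
  have a4 : (Cu a b).a₄ = b := rfl
  have hne : y ≠ (Cu a b).negY x y := by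
    rw [Affine.negY, a1, a3]
    intro h0
    apply hy
    have : (2 : ℚ) * y = 0 := by linear_combination h0
    exact (mul_eq_zero.1 this).resolve_left two_ne_zero
  have hsl : (Cu a b).slope x x y y = (3 * x ^ 2 + 2 * a * x + b) / (2 * y) := by
    rw [Affine.slope_of_Y_ne rfl hne, Affine.negY, a1, a2, a3, a4]
    congr 1 <;> ring
  rw [Affine.Point.add_self_of_Y_ne hne] at hP
  injection hP with e1 _
  rw [hsl, Affine.addX, a1, a2] at e1
  have e0 := ns_eq h
  have e2 : X * (4 * y ^ 2) = (3 * x ^ 2 + 2 * a * x + b) ^ 2 - (a + 2 * x) * (4 * y ^ 2) := by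
    rw [← e1]
    field_simp
    ring
  rw [e2, e0]
  ring

/-- no point of order four above `(e, 0)` -/
lemma no_half (_hb : b ≠ 0) (_hd : a ^ 2 - 4 * b ≠ 0) {e f : ℚ} (ha : a = -(e + f)) (hbe : b = e * f)
    (hns : ¬ IsSquare (e * (e - f))) (h0 : (Cu a b).Nonsingular e 0) (P : (Cu a b).Point) :
    P + P ≠ .some e 0 h0 := by
  intro hP
  rcases P with _ | ⟨x, y, hxy⟩
  · change (0 : (Cu a b).Point) + 0 = _ at hP
    rw [add_zero] at hP
    exact Affine.Point.some_ne_zero _ hP.symm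
  · by_cases hy : y = 0
    · have h2 : (.some x y hxy : (Cu a b).Point) + .some x y hxy = 0 := by
        apply Affine.Point.add_of_Y_eq rfl
        have a1 : (Cu a b).a₁ = 0 := rfl
        have a3 : (Cu a b).a₃ = 0 := rfl
        rw [Affine.negY, a1, a3, hy]
        ring
      rw [h2] at hP
      exact Affine.Point.some_ne_zero _ hP.symm
    · have h1 := dbl_x hxy h0 hy hP
      have e0 := ns_eq hxy
      rw [e0, hbe, ha] at h1
      have h2 : ((x - e) ^ 2 - e * (e - f)) ^ 2 = 0 := by linear_combination -h1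
      have h3 := pow_eq_zero_iff (two_ne_zero) |>.1 h2
      exact hns ⟨x - e, by linear_combination -h3⟩

/-- no point of order four above `(0, 0)` -/
lemma no_half0 (hb : b ≠ 0) (hd : a ^ 2 - 4 * b ≠ 0) {n : ℚ}
    (hn : n ≠ 0) (hbn : b = n ^ 2) (h1 : ¬ IsSquare (a + 2 * n)) (h2 : ¬ IsSquare (a - 2 * n))
    (P : (Cu a b).Point) : P + P ≠ TT hb hd := by
  intro hP
  rcases P with _ | ⟨x, y, hxy⟩
  · change (0 : (Cu a b).Point) + 0 = _ at hP
    rw [add_zero] at hP
    exact TT_ne _ _ hP.symm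
  · by_cases hy : y = 0
    · have h2 : (.some x y hxy : (Cu a b).Point) + .some x y hxy = 0 := by
        apply Affine.Point.add_of_Y_eq rfl
        have a1 : (Cu a b).a₁ = 0 := rfl
        have a3 : (Cu a b).a₃ = 0 := rfl
        rw [Affine.negY, a1, a3, hy]
        ring
      rw [h2] at hP
      exact TT_ne _ _ hP.symm
    · have h3 := dbl_x hxy _ hy hP
      rw [zero_mul] at h3
      have e5 := pow_eq_zero_iff (two_ne_zero) |>.1 h3.symm
      rw [hbn] at e5
      have e6 : (n - x) * (n + x) = 0 := by linear_combination e5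
      have e0 := ns_eq hxy
      rw [hbn] at e0
      rcases mul_eq_zero.1 e6 with e7 | e7
      · have hxn : x = n := by linarith
        rw [hxn] at e0
        refine h1 ⟨y / n, ?_⟩
        field_simp
        linear_combination -e0
      · have hxn : x = -n := by linarith
        rw [hxn] at e0
        refine h2 ⟨y / n, ?_⟩
        field_simp
        linear_combination -e0

lemma ns_e {e f : ℚ} (hb : b ≠ 0) (hd : a ^ 2 - 4 * b ≠ 0) (ha : a = -(e + f)) (hbe : b = e * f) :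
    (Cu a b).Nonsingular e 0 := cu_ns hb hd (by rw [ha, hbe]; ring)

/-- the four points killed by two -/
lemma two_tors (hb : b ≠ 0) (hd : a ^ 2 - 4 * b ≠ 0) {e f : ℚ} (ha : a = -(e + f)) (hbe : b = e * f)
    (he : (Cu a b).Nonsingular e 0) (hf : (Cu a b).Nonsingular f 0)
    {P : (Cu a b).Point} (hP : P + P = 0) : P = 0 ∨ P = TT hb hd ∨ P = .some e 0 he ∨ P = .some f 0 hf := by
  rcases P with _ | ⟨x, y, hxy⟩
  · exact Or.inl rfl
  · rw [add_eq_zero_iff_eq_neg, Affine.Point.neg_some] at hP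
    injection hP with _ hy
    have a1 : (Cu a b).a₁ = 0 := rfl
    have a3 : (Cu a b).a₃ = 0 := rfl
    rw [Affine.negY, a1, a3] at hy
    have hy0 : y = 0 := by linarith
    subst hy0
    have e0 := ns_eq hxy
    rw [ha, hbe] at e0
    have e1 : x * ((x - e) * (x - f)) = 0 := by linear_combination -e0
    rcases mul_eq_zero.1 e1 with h | h
    · exact Or.inr (Or.inl (isT_of_x0 hb hd hxy h))
    · rcases mul_eq_zero.1 h with h | h
      · exact Or.inr (Or.inr (Or.inl (some_congr _ _ (by linarith) rfl)))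
      · exact Or.inr (Or.inr (Or.inr (some_congr _ _ (by linarith) rfl)))

lemma tors_four (h : Dat a b a' b' u) (h' : Dat a' b' a b u') (huu : u * u' = 2) {n e f : ℚ}
    (hn : n ≠ 0) (hbn : b = n ^ 2) (h1 : ¬ IsSquare (a + 2 * n)) (h2 : ¬ IsSquare (a - 2 * n))
    (ha : a = -(e + f)) (hbe : b = e * f)
    (he : (Cu a b).Nonsingular e 0) (hf : (Cu a b).Nonsingular f 0)
    (hns1 : ¬ IsSquare (e * (e - f))) (hns2 : ¬ IsSquare (f * (f - e)))
    (H1 : ∀ (P : (Cu a' b').Point) (m : ℕ), Odd m → m • P = 0 → P = 0)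
    {P : (Cu a b).Point} {m : ℕ} (hm : m ≠ 0) (hP : m • P = 0) :
    P = 0 ∨ P = TT h.hb h.hd ∨ P = .some e 0 he ∨ P = .some f 0 hf := by
  obtain ⟨k, l, hl, rfl⟩ := Nat.exists_eq_two_pow_mul_odd hm
  rw [mul_comm, mul_nsmul'] at hP
  have e1 : 2 ^ k • P = 0 := by
    exact odd_zero h h' huu H1 hl hP
  clear hP
  induction k generalizing P with
  | zero =>
    rw [pow_zero, one_nsmul] at e1
    exact Or.inl e1
  | succ k ih =>
    have e2 : 2 ^ k • (P + P) = 0 := by
      rw [← two_nsmul, smul_smul, ← pow_succ]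
      exact e1
    rcases ih (by
      have := hl.pos
      positivity) e2 with e3 | e3 | e3 | e3
    · exact two_tors h.hb h.hd ha hbe he hf e3
    · exact absurd e3 (no_half0 h.hb h.hd hn hbn h1 h2 P)
    · exact absurd e3 (no_half h.hb h.hd ha hbe hns1 he P)
    · exact absurd e3 (no_half h.hb h.hd (by rw [ha]; ring) (by rw [hbe]; ring) hns2 hf P)

end

lemma card_four {G H : Type} [AddCommGroup G] [AddCommGroup H] (e : H ≃+ G) (S : Finset H)
    (hS : S.card = 4) (hSS : ∀ P ∈ S, P + P = 0)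
    (h : ∀ (P : H) (m : ℕ), m ≠ 0 → m • P = 0 → P ∈ S) :
    Nat.card (AddCommGroup.torsion G) = 4 := by
  have h1 : (AddCommGroup.torsion G : Set G) = e '' (S : Set H) := by
    ext z
    constructor
    · intro hz
      have hz' : IsOfFinAddOrder z := hz
      rw [isOfFinAddOrder_iff_nsmul_eq_zero] at hz'
      obtain ⟨m, hm, hmz⟩ := hz'
      have h1 : m • e.symm z = 0 := by rw [← map_nsmul, hmz, map_zero]
      exact ⟨e.symm z, h _ m hm.ne' h1, e.apply_symm_apply z⟩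
    · rintro ⟨P, hP, rfl⟩
      show IsOfFinAddOrder (e P)
      rw [isOfFinAddOrder_iff_nsmul_eq_zero]
      refine ⟨2, by norm_num, ?_⟩
      rw [two_nsmul, ← map_add, hSS P hP, map_zero]
  have h2 : Nat.card (AddCommGroup.torsion G) = (AddCommGroup.torsion G : Set G).ncard := rfl
  rw [h2, h1, Set.ncard_image_of_injective _ e.injective, Set.ncard_coe_finset, hS]

lemma odd_of {W : WeierstrassCurve ℤ} (h : torsOrder W = 4) (P : (base W ℚ).toAffine.Point) {m : ℕ}
    (hm : Odd m) (hP : m • P = 0) : P = 0 := by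
  unfold torsOrder at h
  have hmem : P ∈ AddCommGroup.torsion (base W ℚ).toAffine.Point := by
    show IsOfFinAddOrder P
    rw [isOfFinAddOrder_iff_nsmul_eq_zero]
    exact ⟨m, hm.pos, hP⟩
  obtain ⟨P', hP'⟩ : ∃ P' : AddCommGroup.torsion (base W ℚ).toAffine.Point, P' = ⟨P, hmem⟩ :=
    ⟨_, rfl⟩
  have h1 : addOrderOf P' ∣ 4 := by rw [← h]; exact addOrderOf_dvd_natCard P'
  have h2 : addOrderOf P' ∣ m := by
    apply addOrderOf_dvd_of_nsmul_eq_zero
    rw [hP']
    exact Subtype.ext hP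
  have h3 : Nat.Coprime 4 m := by
    have : Nat.Coprime (2 ^ 2) m := Nat.Coprime.pow_left 2 (Nat.coprime_two_left.2 hm)
    exact this
  have h4 : addOrderOf P' = 1 := Nat.dvd_one.1 (h3 ▸ Nat.dvd_gcd h1 h2)
  have h5 : P' = 0 := AddMonoid.addOrderOf_eq_one_iff.1 h4
  rw [hP'] at h5
  exact congrArg Subtype.val h5

lemma nsq {m : ℕ} (h : m % 4 = 2 ∨ m % 4 = 3) : ¬ IsSquare ((m : ℕ) : ℚ) := by
  intro h1
  rw [Rat.isSquare_natCast_iff] at h1
  obtain ⟨r, hr⟩ := h1
  have h2 : r * r % 4 = 0 ∨ r * r % 4 = 1 := by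
    have : r % 4 = 0 ∨ r % 4 = 1 ∨ r % 4 = 2 ∨ r % 4 = 3 := by omega
    rcases this with h | h | h | h <;> simp [Nat.mul_mod, h]
  omega

lemma nsq_mul {c d : ℚ} (hd : d ≠ 0) (h : ¬ IsSquare c) : ¬ IsSquare (c * d ^ 2) := by
  rintro ⟨r, hr⟩
  refine h ⟨r / d, ?_⟩
  field_simp
  linear_combination hr

/-- **Project SN, TO2.** -/
theorem t_TO2 : Pool.Agent.N818.SN.S_TO2 := by
  intro n hn h4
  obtain ⟨hs, hm⟩ := hn
  have hn0 : 0 < n := by
    rcases Nat.eq_zero_or_pos n with rfl | h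
    · omega
    · exact h
  have hq : (0 : ℚ) < n := by exact_mod_cast hn0
  have hq0 : (n : ℚ) ≠ 0 := hq.ne'
  have hnq : ¬ IsSquare (n : ℚ) := nsq (by omega)
  have h2q : ¬ IsSquare (2 : ℚ) := by
    have := nsq (m := 2) (by omega)
    exact_mod_cast this
  have h2nq : ¬ IsSquare (2 * (n : ℚ)) := by
    have := nsq (m := 2 * n) (by omega)
    push_cast at this
    exact this
  have hneg : ∀ x : ℚ, x < 0 → ¬ IsSquare x := fun x hx h => by
    have := h.nonneg
    linarith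
  have hWD : torsOrder (WD n) = 4 := by
    have hD : Dat (10 * (n : ℚ)) (9 * (n : ℚ) ^ 2) (-5 * n) (4 * (n : ℚ) ^ 2) 2 :=
      ⟨mul_ne_zero (by norm_num) (pow_ne_zero 2 hq0), mul_ne_zero (by norm_num) (pow_ne_zero 2 hq0),
        two_ne_zero, by ring, by ring⟩
    have hD' : Dat (-5 * (n : ℚ)) (4 * (n : ℚ) ^ 2) (10 * n) (9 * (n : ℚ) ^ 2) 1 :=
      ⟨mul_ne_zero (by norm_num) (pow_ne_zero 2 hq0), mul_ne_zero (by norm_num) (pow_ne_zero 2 hq0),
        one_ne_zero, by ring, by ring⟩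
    have hVR : VR (base (WA n) ℚ) (Cu (-5 * (n : ℚ)) (4 * (n : ℚ) ^ 2)) 1 (-n) 0 0 := by
      constructor <;> simp [Cu, WA, WeierstrassCurve.map] <;> ring_nf
    have hVR' : VR (base (WD n) ℚ) (Cu (10 * (n : ℚ)) (9 * (n : ℚ) ^ 2)) 1 0 0 0 := by
      constructor <;> simp [Cu, WD, WeierstrassCurve.map]
    have H1 : ∀ (P : (Cu (-5 * (n : ℚ)) (4 * (n : ℚ) ^ 2)).Point) (m : ℕ), Odd m → m • P = 0 →
        P = 0 := by
      intro P m hm' hP
      let e := hVR.equiv (cu_delta_ne hD.hb' hD.hd')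
      have h5 := odd_of h4 (e P) hm' (by rw [← map_nsmul]; exact (congrArg e hP).trans (map_zero e))
      exact e.injective (by rw [h5, map_zero])
    have hb := hD.hb
    have hd := hD.hd
    have ha : (10 * (n : ℚ)) = -(-(n : ℚ) + -(9 * n)) := by ring
    have hbe : (9 * (n : ℚ) ^ 2) = (-(n : ℚ)) * (-(9 * n)) := by ring
    have he : (Cu (10 * (n : ℚ)) (9 * (n : ℚ) ^ 2)).Nonsingular (-(n : ℚ)) 0 := ns_e hb hd ha hbe
    have hf : (Cu (10 * (n : ℚ)) (9 * (n : ℚ) ^ 2)).Nonsingular (-(9 * n)) 0 :=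
      ns_e (f := -(n : ℚ)) hb hd (by ring) (by ring)
    classical
    refine card_four (hVR'.equiv (cu_delta_ne hD.hb hD.hd))
      ({0, TT hb hd, .some _ _ he, .some _ _ hf} : Finset _) ?_ ?_ ?_
    · have k1 : (0 : (Cu (10 * (n : ℚ)) (9 * (n : ℚ) ^ 2)).Point) ≠ TT hb hd := (TT_ne _ _).symm
      have k2 : (0 : (Cu (10 * (n : ℚ)) (9 * (n : ℚ) ^ 2)).Point) ≠ .some _ _ he :=
        (Affine.Point.some_ne_zero _).symm
      have k3 : (0 : (Cu (10 * (n : ℚ)) (9 * (n : ℚ) ^ 2)).Point) ≠ .some _ _ hf :=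
        (Affine.Point.some_ne_zero _).symm
      have k4 : TT hb hd ≠ .some _ _ he := by
        unfold TT
        intro h
        injection h with h _
        apply hq0
        linarith
      have k5 : TT hb hd ≠ .some _ _ hf := by
        unfold TT
        intro h
        injection h with h _
        apply hq0
        linarith
      have k6 : (.some _ _ he : (Cu (10 * (n : ℚ)) (9 * (n : ℚ) ^ 2)).Point) ≠ .some _ _ hf := by
        intro h
        injection h with h _
        apply hq0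
        linarith
      rw [Finset.card_insert_of_notMem, Finset.card_insert_of_notMem, Finset.card_insert_of_notMem,
        Finset.card_singleton]
      · simpa using k6
      · simp only [Finset.mem_insert, Finset.mem_singleton, not_or]
        exact ⟨k4, k5⟩
      · simp only [Finset.mem_insert, Finset.mem_singleton, not_or]
        exact ⟨k1, k2, k3⟩
    · intro P hP
      simp only [Finset.mem_insert, Finset.mem_singleton] at hP
      have key : ∀ (x : ℚ) (hx : (Cu (10 * (n : ℚ)) (9 * (n : ℚ) ^ 2)).Nonsingular x 0),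
          (.some x 0 hx : (Cu (10 * (n : ℚ)) (9 * (n : ℚ) ^ 2)).Point) + .some x 0 hx = 0 := by
        intro x hx
        apply Affine.Point.add_of_Y_eq rfl
        have a1 : (Cu (10 * (n : ℚ)) (9 * (n : ℚ) ^ 2)).a₁ = 0 := rfl
        have a3 : (Cu (10 * (n : ℚ)) (9 * (n : ℚ) ^ 2)).a₃ = 0 := rfl
        rw [Affine.negY, a1, a3]
        ring
      rcases hP with rfl | rfl | rfl | rfl
      · exact add_zero _
      · exact T_add_T _ _
      · exact key _ _
      · exact key _ _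
    · intro P m hm' hP
      simp only [Finset.mem_insert, Finset.mem_singleton]
      refine tors_four hD hD' (by norm_num) (n := 3 * (n : ℚ)) (mul_ne_zero (by norm_num) hq0) (by ring)
        ?_ ?_ ha hbe he hf ?_ ?_ H1 hm' hP
      · convert nsq_mul (c := (n : ℚ)) (d := 4) (by norm_num) hnq using 1
        ring_nf
      · convert nsq_mul (c := (n : ℚ)) (d := 2) (by norm_num) hnq using 1
        ring_nf
      · exact hneg _ (by nlinarith)
      · convert nsq_mul (c := (2 : ℚ)) (d := 6 * n) (mul_ne_zero (by norm_num) hq0) h2q using 1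
        ring_nf
  refine ⟨hWD, ?_, ?_⟩
  · -- `WE n`
    have hD : Dat (-14 * (n : ℚ)) (81 * (n : ℚ) ^ 2) (7 * n) (-8 * (n : ℚ) ^ 2) 2 :=
      ⟨mul_ne_zero (by norm_num) (pow_ne_zero 2 hq0), mul_ne_zero (by norm_num) (pow_ne_zero 2 hq0),
        two_ne_zero, by ring, by ring⟩
    have hD' : Dat (7 * (n : ℚ)) (-8 * (n : ℚ) ^ 2) (-14 * n) (81 * (n : ℚ) ^ 2) 1 :=
      ⟨mul_ne_zero (by norm_num) (pow_ne_zero 2 hq0), mul_ne_zero (by norm_num) (pow_ne_zero 2 hq0),
        one_ne_zero, by ring, by ring⟩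
    have hVR : VR (base (WD n) ℚ) (Cu (7 * (n : ℚ)) (-8 * (n : ℚ) ^ 2)) 1 (-n) 0 0 := by
      constructor <;> simp [Cu, WD, WeierstrassCurve.map] <;> ring_nf
    have hVR' : VR (base (WE n) ℚ) (Cu (-14 * (n : ℚ)) (81 * (n : ℚ) ^ 2)) 1 0 0 0 := by
      constructor <;> simp [Cu, WE, WeierstrassCurve.map]
    have H1 : ∀ (P : (Cu (7 * (n : ℚ)) (-8 * (n : ℚ) ^ 2)).Point) (m : ℕ), Odd m → m • P = 0 →
        P = 0 := by
      intro P m hm' hP
      let e := hVR.equiv (cu_delta_ne hD.hb' hD.hd')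
      have h5 := odd_of hWD (e P) hm' (by rw [← map_nsmul]; exact (congrArg e hP).trans (map_zero e))
      exact e.injective (by rw [h5, map_zero])
    exact card_tors (hVR'.equiv (cu_delta_ne hD.hb hD.hd)) (TT hD.hb hD.hd) (TT_ne _ _)
      (T_add_T _ _) fun P m hm' hP => tors_two hD hD' (by norm_num) (n := 9 * (n : ℚ))
        (mul_ne_zero (by norm_num) hq0) (by ring)
        (by convert nsq_mul (c := (n : ℚ)) (d := 2) (by norm_num) hnq using 1; ring_nf)
        (hneg _ (by linarith)) (hneg _ (by nlinarith)) H1 hm' hP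
  · -- `WF n`
    have hD : Dat (34 * (n : ℚ)) ((n : ℚ) ^ 2) (-17 * n) (72 * (n : ℚ) ^ 2) 2 :=
      ⟨pow_ne_zero 2 hq0, mul_ne_zero (by norm_num) (pow_ne_zero 2 hq0),
        two_ne_zero, by ring, by ring⟩
    have hD' : Dat (-17 * (n : ℚ)) (72 * (n : ℚ) ^ 2) (34 * n) ((n : ℚ) ^ 2) 1 :=
      ⟨mul_ne_zero (by norm_num) (pow_ne_zero 2 hq0), pow_ne_zero 2 hq0,
        one_ne_zero, by ring, by ring⟩
    have hVR : VR (base (WD n) ℚ) (Cu (-17 * (n : ℚ)) (72 * (n : ℚ) ^ 2)) 1 (-(9 * n)) 0 0 := by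
      constructor <;> simp [Cu, WD, WeierstrassCurve.map] <;> ring_nf
    have hVR' : VR (base (WF n) ℚ) (Cu (34 * (n : ℚ)) ((n : ℚ) ^ 2)) 1 0 0 0 := by
      constructor <;> simp [Cu, WF, WeierstrassCurve.map]
    have H1 : ∀ (P : (Cu (-17 * (n : ℚ)) (72 * (n : ℚ) ^ 2)).Point) (m : ℕ), Odd m → m • P = 0 →
        P = 0 := by
      intro P m hm' hP
      let e := hVR.equiv (cu_delta_ne hD.hb' hD.hd')
      have h5 := odd_of hWD (e P) hm' (by rw [← map_nsmul]; exact (congrArg e hP).trans (map_zero e))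
      exact e.injective (by rw [h5, map_zero])
    exact card_tors (hVR'.equiv (cu_delta_ne hD.hb hD.hd)) (TT hD.hb hD.hd) (TT_ne _ _)
      (T_add_T _ _) fun P m hm' hP => tors_two hD hD' (by norm_num) hq0 rfl
        (by convert nsq_mul (c := (n : ℚ)) (d := 6) (by norm_num) hnq using 1; ring_nf)
        (by convert nsq_mul (c := 2 * (n : ℚ)) (d := 4) (by norm_num) h2nq using 1; ring_nf)
        (by convert nsq_mul (c := (2 : ℚ)) (d := 24 * n) (mul_ne_zero (by norm_num) hq0) h2q using 1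
            ring_nf) H1 hm' hP

end Pool.Agent.N644.SN
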